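import Mathlib
import Pool.Agent.Q284.PX.Stm4
import Pool.Agent.Q162.PX.ZB2

/-!
# Project PX4 of helper284: job ZB4 (mass of the prime powers), adapted from `Pool/Agent/Q162/PX/ZB2.lean`
-/

set_option autoImplicit false

open Finset Polynomial ComplexConjugate

namespace Pool.Agent.Q92.PX

open Pool.Agent.Q284.PX
open Pool.Agent.Q284.PS (S_CPR PD PI qq BB)
open Pool.Agent.Q24.PS (mem_PI mem_PD card_PI three_le)
open Pool.Agent.Q162.PX (num_a two_le_rpow x17_le_rpow om2_le om2_nonneg w2_nonneg w2_sq om_le_w)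

theorem num_b (j : ℕ) (hj : 900 ≤ j) : 10 ^ 12 * (j : ℝ) ^ 10 ≤ (17 / 10) ^ j := by
  induction j, hj using Nat.le_induction with
  | base =>
    calc (10 : ℝ) ^ 12 * ((900 : ℕ) : ℝ) ^ 10 ≤ (17 / 10) ^ 200 := by norm_num
      _ ≤ (17 / 10) ^ 900 := pow_le_pow_right₀ (by norm_num) (by norm_num)
  | succ n hn ih =>
    have h1 : (900 : ℝ) ≤ n := by exact_mod_cast hn
    have h2 : ((n : ℝ) + 1) ≤ 1.01 * n := by linarith
    have h3 : ((n : ℝ) + 1) ^ 10 ≤ (1.01 * n) ^ 10 := pow_le_pow_left₀ (by positivity) h2 10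
    have h4 : (1.01 * (n : ℝ)) ^ 10 ≤ (17 / 10) * (n : ℝ) ^ 10 := by
      rw [mul_pow]
      exact mul_le_mul_of_nonneg_right (by norm_num) (by positivity)
    push_cast
    rw [pow_succ ((17 : ℝ) / 10)]
    nlinarith

/-- the bound for one degree -/
noncomputable def SS (q : ℝ) (j : ℕ) : ℝ :=
  4 * q ^ ((j : ℝ) / 32 + j / 100) + if 900 ≤ j then 2 * (j : ℝ) ^ 4 * BB * q ^ ((j : ℝ) / 2) else 0

theorem SS_nonneg {q : ℝ} (hq : 0 < q) (j : ℕ) : 0 ≤ SS q j := by
  have hB : (0 : ℝ) ≤ BB := by unfold BB; norm_num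
  unfold SS
  split_ifs <;> positivity

/-- the numerical inequality -/
theorem num_c {q : ℝ} (hq : 3 ≤ q) {d j : ℕ} (hd : 1000 ≤ d) (hj : 100 ≤ j) :
    (j : ℝ) * SS q j ≤ BB ^ 2 * om2 q d j / (10 ^ 6 * j) := by
  have hq0 : 0 < q := by linarith
  have hq1 : 1 ≤ q := by linarith
  have hjr : (100 : ℝ) ≤ j := by exact_mod_cast hj
  have hj0 : (0 : ℝ) < j := by linarith
  have hdr : (1000 : ℝ) ≤ d := by exact_mod_cast hd
  have hd5 : 5 / (d : ℝ) ≤ 5 / 1000 := div_le_div_of_nonneg_left (by norm_num) (by norm_num) hdr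
  have hE : 995 / 1000 * (j : ℝ) ≤ (1 - 5 / (d : ℝ)) * j := by nlinarith
  set E : ℝ := q ^ ((1 - 5 / (d : ℝ)) * j) with hEdef
  have hE0 : 0 < E := Real.rpow_pos_of_pos hq0 _
  -- the first part
  have h1 : 6 * 10 ^ 15 * (j : ℝ) ^ 6 * q ^ ((j : ℝ) / 32 + j / 100) ≤ E := by
    have h2 : (2 : ℝ) ^ j ≤ q ^ (((7 : ℝ) / 10) * j) := by
      rw [Real.rpow_mul hq0.le, Real.rpow_natCast]
      exact pow_le_pow_left₀ (by norm_num) (two_le_rpow hq) j
    calc 6 * 10 ^ 15 * (j : ℝ) ^ 6 * q ^ ((j : ℝ) / 32 + j / 100) ≤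
          q ^ (((7 : ℝ) / 10) * j) * q ^ ((j : ℝ) / 32 + j / 100) :=
          mul_le_mul_of_nonneg_right ((num_a j hj).trans h2) (Real.rpow_nonneg hq0.le _)
      _ = q ^ (((7 : ℝ) / 10) * j + ((j : ℝ) / 32 + j / 100)) := (Real.rpow_add hq0 _ _).symm
      _ ≤ E := Real.rpow_le_rpow_of_exponent_le hq1 (by linarith)
  have h3 : (if 900 ≤ j then 10 ^ 12 * (j : ℝ) ^ 10 * q ^ ((j : ℝ) / 2) else 0) ≤ E := by
    split_ifs with h9
    · have h2 : ((17 : ℝ) / 10) ^ j ≤ q ^ (((49 : ℝ) / 100) * j) := by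
        rw [Real.rpow_mul hq0.le, Real.rpow_natCast]
        exact pow_le_pow_left₀ (by norm_num) (x17_le_rpow hq) j
      calc 10 ^ 12 * (j : ℝ) ^ 10 * q ^ ((j : ℝ) / 2) ≤
            q ^ (((49 : ℝ) / 100) * j) * q ^ ((j : ℝ) / 2) :=
            mul_le_mul_of_nonneg_right ((num_b j h9).trans h2) (Real.rpow_nonneg hq0.le _)
        _ = q ^ (((49 : ℝ) / 100) * j + (j : ℝ) / 2) := (Real.rpow_add hq0 _ _).symm
        _ ≤ E := Real.rpow_le_rpow_of_exponent_le hq1 (by linarith)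
    · exact hE0.le
  have e1 : om2 q d j = E / (j : ℝ) ^ 4 := rfl
  rw [e1, le_div_iff₀ (by positivity)]
  have e2 : BB = 1 / 25600 := rfl
  rw [e2, mul_div_assoc', le_div_iff₀ (by positivity)]
  unfold SS
  rw [e2]
  have h4 : 0 ≤ (j : ℝ) ^ 6 * q ^ ((j : ℝ) / 32 + j / 100) := by positivity
  split_ifs at h3 ⊢ with h9
  · have h5 : 0 ≤ (j : ℝ) ^ 10 * q ^ ((j : ℝ) / 2) := by positivity
    nlinarith
  · nlinarith

theorem w2_le {q : ℝ} (hq : 3 ≤ q) {d m j : ℕ} (hm : 1 ≤ m) (hmj : 2 * m ≤ j) :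
    w2 q d m ≤ q ^ ((j : ℝ) / 2) := by
  have hq0 : 0 < q := by linarith
  have hm' : (1 : ℝ) ≤ m := by exact_mod_cast hm
  have hmj' : 2 * (m : ℝ) ≤ j := by exact_mod_cast hmj
  have h1 : w2 q d m ≤ q ^ ((1 - 5 / (2 * (d : ℝ))) * m) := by
    unfold w2
    exact div_le_self (Real.rpow_nonneg hq0.le _) (Real.one_le_rpow hm' (by norm_num))
  refine h1.trans (Real.rpow_le_rpow_of_exponent_le (by linarith) ?_)
  have h2 : 0 ≤ 5 / (2 * (d : ℝ)) := by positivity
  nlinarith

section main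

variable {F : Type} [Field F] [Fintype F]

/-- the mass in one degree -/
theorem l1 (hC : S_CPR) (hq : 3 ≤ qq F) {d N : ℕ} {P₀ : F[X]} {a : F[X] → ℝ} (hG : Good F d N P₀ a)
    {m : ℕ} (hm : 1 ≤ m) (hmN : m ≤ N) : ∑ P ∈ PI F m, |a P| ≤ BB * w2 (qq F) d m := by
  have hB : 0 < BB := by
    unfold BB
    norm_num
  have hq0 : 0 < qq F := by linarith
  have hww := w2_nonneg hq d m
  have hmr : (1 : ℝ) ≤ m := by exact_mod_cast hm
  have l2 := hG.l2 m hm hmN
  apply le_of_pow_le_pow_left₀ (n := 2) (by norm_num) (by positivity)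
  have h1 := sq_sum_le_card_mul_sum_sq (s := PI F m) (f := fun P => |a P|)
  have h2 := card_PI (F := F) hC hm
  have h3 : ((PI F m).card : ℝ) ≤ qq F ^ m / m := by
    rw [le_div_iff₀ (by linarith)]
    linarith
  simp only [sq_abs] at h1
  calc (∑ P ∈ PI F m, |a P|) ^ 2 ≤ (PI F m).card * ∑ P ∈ PI F m, a P ^ 2 := h1
    _ ≤ qq F ^ m / m * (BB ^ 2 * om2 (qq F) d m) :=
        mul_le_mul h3 l2 (Finset.sum_nonneg fun _ _ => sq_nonneg _) (by positivity)
    _ = (BB * w2 (qq F) d m) ^ 2 := by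
        rw [mul_pow, w2_sq hq d hm]
        ring

/-- the conditions on the local coefficients -/
def Loc (F : Type) [Field F] [Fintype F] (d N : ℕ) (a : F[X] → ℝ) (v : F[X] → ℕ → ℝ) : Prop :=
  ∀ n : ℕ, n ≤ N → ∀ P ∈ PI F n, |v P 1| ≤ |a P| ∧
    (∀ k : ℕ, 2 ≤ k → k < 100 → |v P k| ≤ (d : ℝ) ^ 2 * |a P|) ∧
    ∀ k : ℕ, |v P k| ≤ 2 * (3 : ℝ) ^ ((k : ℝ) / 64)

/-- the sum over the primes of one small degree -/
theorem fibre4 (hC : S_CPR) (hq : 3 ≤ qq F) {d N : ℕ} (hd : 1000 ≤ d) {P₀ : F[X]} {a : F[X] → ℝ}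
    {v : F[X] → ℕ → ℝ} (hG : Good F d N P₀ a) (hv : Loc F d N a v)
    {j m k e : ℕ} (hj : j ≤ N) (hm : 1 ≤ m) (hk : 2 ≤ k) (hmk : j = m * k)
    (he : e = 1 ∨ e = 2) :
    ∑ P ∈ PI F m, |v P k| ^ e ≤ SS (qq F) j := by
  classical
  have hq1 : 1 ≤ qq F := by linarith
  have hq0 : 0 < qq F := by linarith
  have hB0 : 0 < BB := by
    unfold BB
    norm_num
  have hB1 : BB ≤ 1 := by
    unfold BB
    norm_num
  have hmj : m ≤ j := by
    rw [hmk]
    exact Nat.le_mul_of_pos_right m (by omega)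
  have hkj : k ≤ j := by
    rw [hmk]
    exact Nat.le_mul_of_pos_left k (by omega)
  have h2m : 2 * m ≤ j := by
    rw [hmk]
    nlinarith
  have hkr : (k : ℝ) ≤ j := by exact_mod_cast hkj
  by_cases hkK : k < 100
  · -- small exponents
    by_cases hmd : 20 * m < 9 * d
    · have h1 : ∀ P ∈ PI F m, |v P k| ^ e = 0 := by
        intro P hP
        have h2 := (hv m (by omega) P hP).2.1 k hk hkK
        have h3 : a P = 0 := hG.zero P (by rw [(mem_PI.1 hP).1.2]; exact hmd)
        rw [h3, abs_zero, mul_zero] at h2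
        have h4 : |v P k| = 0 := le_antisymm h2 (abs_nonneg _)
        rw [h4]
        rcases he with rfl | rfl <;> norm_num
      rw [sum_eq_zero h1]
      exact SS_nonneg hq0 j
    · have hj9 : 900 ≤ j := by omega
      have hdj : 9 * d ≤ 10 * j := by omega
      have hdj' : (d : ℝ) ≤ 10 / 9 * j := by
        have : (9 * d : ℝ) ≤ 10 * j := by exact_mod_cast hdj
        linarith
      have hj1 : (1 : ℝ) ≤ j := by
        have : (900 : ℝ) ≤ j := by exact_mod_cast hj9
        linarith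
      have hd0 : (0 : ℝ) ≤ d := Nat.cast_nonneg d
      have hd4 : (d : ℝ) ^ 4 ≤ 2 * (j : ℝ) ^ 4 := by
        calc (d : ℝ) ^ 4 ≤ (10 / 9 * j) ^ 4 := pow_le_pow_left₀ hd0 hdj' 4
          _ = (10 / 9) ^ 4 * (j : ℝ) ^ 4 := by ring
          _ ≤ 2 * (j : ℝ) ^ 4 := mul_le_mul_of_nonneg_right (by norm_num) (by positivity)
      have hd2 : (d : ℝ) ^ 2 ≤ (d : ℝ) ^ 4 := by
        refine pow_le_pow_right₀ ?_ (by norm_num)
        have : (1000 : ℝ) ≤ d := by exact_mod_cast hd
        linarith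
      have key : ∑ P ∈ PI F m, |v P k| ^ e ≤ (d : ℝ) ^ 4 * (BB * qq F ^ ((j : ℝ) / 2)) := by
        rcases he with rfl | rfl
        · have h1 : ∀ P ∈ PI F m, |v P k| ^ 1 ≤ (d : ℝ) ^ 2 * |a P| := fun P hP => by
            rw [pow_one]
            exact (hv m (by omega) P hP).2.1 k hk hkK
          calc ∑ P ∈ PI F m, |v P k| ^ 1 ≤ ∑ P ∈ PI F m, (d : ℝ) ^ 2 * |a P| := sum_le_sum h1
            _ = (d : ℝ) ^ 2 * ∑ P ∈ PI F m, |a P| := (mul_sum _ _ _).symm
            _ ≤ (d : ℝ) ^ 2 * (BB * w2 (qq F) d m) :=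
                mul_le_mul_of_nonneg_left (l1 hC hq hG hm (by omega)) (by positivity)
            _ ≤ (d : ℝ) ^ 4 * (BB * qq F ^ ((j : ℝ) / 2)) := by
                refine mul_le_mul hd2 (mul_le_mul_of_nonneg_left (w2_le hq hm h2m) hB0.le) ?_
                  (by positivity)
                exact mul_nonneg hB0.le (w2_nonneg hq d m)
        · have h1 : ∀ P ∈ PI F m, |v P k| ^ 2 ≤ (d : ℝ) ^ 4 * a P ^ 2 := fun P hP => by
            have h2 := (hv m (by omega) P hP).2.1 k hk hkK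
            calc |v P k| ^ 2 ≤ ((d : ℝ) ^ 2 * |a P|) ^ 2 := pow_le_pow_left₀ (abs_nonneg _) h2 2
              _ = (d : ℝ) ^ 4 * a P ^ 2 := by
                rw [mul_pow, sq_abs]
                ring
          have h2 := hG.l2 m hm (by omega)
          calc ∑ P ∈ PI F m, |v P k| ^ 2 ≤ ∑ P ∈ PI F m, (d : ℝ) ^ 4 * a P ^ 2 := sum_le_sum h1
            _ = (d : ℝ) ^ 4 * ∑ P ∈ PI F m, a P ^ 2 := (mul_sum _ _ _).symm
            _ ≤ (d : ℝ) ^ 4 * (BB ^ 2 * om2 (qq F) d m) :=
                mul_le_mul_of_nonneg_left h2 (by positivity)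
            _ ≤ (d : ℝ) ^ 4 * (BB * qq F ^ ((j : ℝ) / 2)) := by
                refine mul_le_mul_of_nonneg_left ?_ (by positivity)
                refine mul_le_mul ?_ (om2_le hq hm h2m) (om2_nonneg hq d m) hB0.le
                nlinarith
      refine key.trans ?_
      unfold SS
      rw [if_pos hj9]
      have h5 : (d : ℝ) ^ 4 * (BB * qq F ^ ((j : ℝ) / 2)) ≤
          2 * (j : ℝ) ^ 4 * (BB * qq F ^ ((j : ℝ) / 2)) :=
        mul_le_mul_of_nonneg_right hd4 (by positivity)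
      have h6 : 0 ≤ 4 * qq F ^ ((j : ℝ) / 32 + j / 100) := by positivity
      calc (d : ℝ) ^ 4 * (BB * qq F ^ ((j : ℝ) / 2)) ≤
            2 * (j : ℝ) ^ 4 * (BB * qq F ^ ((j : ℝ) / 2)) := h5
        _ = 2 * (j : ℝ) ^ 4 * BB * qq F ^ ((j : ℝ) / 2) := by ring
        _ ≤ _ := le_add_of_nonneg_left h6
  · -- large exponents
    have h1 : ∀ P ∈ PI F m, |v P k| ^ e ≤ 4 * qq F ^ ((j : ℝ) / 32) := by
      intro P hP
      have h2 : |v P k| ≤ 2 * qq F ^ ((j : ℝ) / 64) := by
        refine ((hv m (by omega) P hP).2.2 k).trans ?_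
        refine mul_le_mul_of_nonneg_left ?_ (by norm_num)
        calc (3 : ℝ) ^ ((k : ℝ) / 64) ≤ qq F ^ ((k : ℝ) / 64) :=
              Real.rpow_le_rpow (by norm_num) hq (by positivity)
          _ ≤ qq F ^ ((j : ℝ) / 64) := Real.rpow_le_rpow_of_exponent_le hq1 (by linarith)
      have h4 : 1 ≤ 2 * qq F ^ ((j : ℝ) / 64) := by
        have := Real.one_le_rpow hq1 (show 0 ≤ (j : ℝ) / 64 by positivity)
        linarith
      calc |v P k| ^ e ≤ (2 * qq F ^ ((j : ℝ) / 64)) ^ e :=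
            pow_le_pow_left₀ (abs_nonneg _) h2 e
        _ ≤ (2 * qq F ^ ((j : ℝ) / 64)) ^ 2 :=
            pow_le_pow_right₀ h4 (by rcases he with rfl | rfl <;> norm_num)
        _ = 4 * qq F ^ ((j : ℝ) / 32) := by
            rw [mul_pow, ← Real.rpow_natCast (qq F ^ ((j : ℝ) / 64)), ← Real.rpow_mul hq0.le]
            norm_num
            congr 1
            ring
    have h2 : ((PI F m).card : ℝ) ≤ qq F ^ ((j : ℝ) / 100) := by
      have h3 := card_PI (F := F) hC hm
      have h4 : (1 : ℝ) ≤ m := by exact_mod_cast hm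
      have h5 : ((PI F m).card : ℝ) ≤ m * (PI F m).card := le_mul_of_one_le_left (by positivity) h4
      refine h5.trans (h3.trans ?_)
      rw [← Real.rpow_natCast]
      apply Real.rpow_le_rpow_of_exponent_le hq1
      have h6 : m * 100 ≤ j := by
        rw [hmk]
        exact Nat.mul_le_mul_left m (by omega)
      have h7 : (m : ℝ) * 100 ≤ j := by exact_mod_cast h6
      linarith
    calc ∑ P ∈ PI F m, |v P k| ^ e ≤ ∑ P ∈ PI F m, 4 * qq F ^ ((j : ℝ) / 32) :=
          sum_le_sum h1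
      _ = (PI F m).card * (4 * qq F ^ ((j : ℝ) / 32)) := by rw [sum_const, nsmul_eq_mul]
      _ ≤ qq F ^ ((j : ℝ) / 100) * (4 * qq F ^ ((j : ℝ) / 32)) :=
          mul_le_mul_of_nonneg_right h2 (by positivity)
      _ = 4 * qq F ^ ((j : ℝ) / 32 + j / 100) := by
          rw [Real.rpow_add hq0]
          ring
      _ ≤ SS (qq F) j := by
          unfold SS
          refine le_add_of_nonneg_right ?_
          split_ifs <;> positivity

/-- the sum over the primes of smaller degree -/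
theorem small_sum4 (hC : S_CPR) (hq : 3 ≤ qq F) {d N : ℕ} (hd : 1000 ≤ d) {P₀ : F[X]} {a : F[X] → ℝ}
    {v : F[X] → ℕ → ℝ} (hG : Good F d N P₀ a) (hv : Loc F d N a v)
    {j e : ℕ} (hj : j ≤ N) (he : e = 1 ∨ e = 2) (T : ℝ) (hT0 : 0 ≤ T)
    (hT : 100 ≤ j → j * SS (qq F) j ≤ T) :
    ∑ P ∈ (PD F j).filter (fun P => P.natDegree < j), |v P (j / P.natDegree)| ^ e ≤ T := by
  classical
  by_cases hjd : 100 ≤ j
  · refine le_trans ?_ (hT hjd)
    have h1 : ∀ P ∈ (PD F j).filter (fun P => P.natDegree < j), P.natDegree ∈ Icc 1 (j - 1) := by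
      intro P hP
      rw [mem_filter, mem_PD] at hP
      have := hP.1.2.1.natDegree_pos
      rw [mem_Icc]
      omega
    rw [← sum_fiberwise_of_maps_to h1]
    have hq0 : 0 < qq F := by linarith
    have hS := SS_nonneg hq0 j
    have h2 : ∀ m ∈ Icc 1 (j - 1),
        ∑ P ∈ ((PD F j).filter (fun P => P.natDegree < j)).filter (fun P => P.natDegree = m),
          |v P (j / P.natDegree)| ^ e ≤ SS (qq F) j := by
      intro m hm
      rw [mem_Icc] at hm
      by_cases hmj : m ∣ j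
      · obtain ⟨k, hk⟩ := hmj
        have hjm : j / m = k := by
          rw [hk]
          exact Nat.mul_div_cancel_left k (by omega)
        have hk2 : 2 ≤ k := by
          by_contra hcon
          have : k = 0 ∨ k = 1 := by omega
          rcases this with h | h
          · rw [h] at hk
            omega
          · rw [h] at hk
            omega
        refine le_trans ?_ (fibre4 hC hq hd hG hv hj hm.1 hk2 hk he)
        have h3 : ((PD F j).filter (fun P => P.natDegree < j)).filter (fun P => P.natDegree = m) ⊆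
            PI F m := by
          intro P hP
          rw [mem_filter, mem_filter, mem_PD] at hP
          rw [mem_PI]
          exact ⟨⟨hP.1.1.1.1, hP.2⟩, hP.1.1.2.1⟩
        have h4 : ∀ P ∈ ((PD F j).filter (fun P => P.natDegree < j)).filter
            (fun P => P.natDegree = m),
            |v P (j / P.natDegree)| ^ e = |v P k| ^ e := by
          intro P hP
          rw [mem_filter] at hP
          rw [hP.2, hjm]
        rw [sum_congr rfl h4]
        exact sum_le_sum_of_subset_of_nonneg h3 (fun _ _ _ => by positivity)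
      · have h3 : ((PD F j).filter (fun P => P.natDegree < j)).filter
            (fun P => P.natDegree = m) = ∅ := by
          apply eq_empty_of_forall_notMem
          intro P hP
          rw [mem_filter, mem_filter, mem_PD] at hP
          apply hmj
          rw [← hP.2]
          exact hP.1.1.2.2
        rw [h3, sum_empty]
        exact hS
    calc _ ≤ ∑ m ∈ Icc 1 (j - 1), SS (qq F) j := sum_le_sum h2
      _ = ((j - 1 : ℕ) : ℝ) * SS (qq F) j := by
          rw [sum_const, nsmul_eq_mul, Nat.card_Icc, Nat.add_sub_cancel]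
      _ ≤ _ := by
          apply mul_le_mul_of_nonneg_right _ hS
          exact_mod_cast Nat.sub_le j 1
  · -- all terms are zero
    have h1 : ∀ P ∈ (PD F j).filter (fun P => P.natDegree < j),
        |v P (j / P.natDegree)| ^ e = 0 := by
      intro P hP
      rw [mem_filter, mem_PD] at hP
      obtain ⟨⟨⟨p1, p2⟩, p3, p4⟩, p5⟩ := hP
      obtain ⟨k, hk⟩ := p4
      have hpos := p3.natDegree_pos
      have hjm : j / P.natDegree = k := by
        conv_lhs => rw [hk]
        exact Nat.mul_div_cancel_left k hpos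
      have hk2 : 2 ≤ k := by
        by_contra hcon
        have : k = 0 ∨ k = 1 := by omega
        rcases this with h | h
        · rw [h] at hk
          omega
        · rw [h] at hk
          omega
      have hkj : k ≤ j := by
        rw [hk]
        exact Nat.le_mul_of_pos_left k hpos
      have hz := hG.zero P (by omega)
      have h5 := (hv P.natDegree (by omega) P (by rw [mem_PI]; exact ⟨⟨p1, rfl⟩, p3⟩)).2.1 k hk2
        (by omega)
      rw [hz, abs_zero, mul_zero] at h5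
      have h6 : |v P k| = 0 := le_antisymm h5 (abs_nonneg _)
      rw [hjm, h6]
      rcases he with rfl | rfl <;> norm_num
    rw [sum_eq_zero h1]
    exact hT0

/-- JOB ZB4 -/
theorem t_ZB4 : S_CPR → S_ZB4 := by
  classical
  intro hC
  refine ⟨1000, fun d hd F _ _ hF N P₀ a v hG hv j hj1 hj => ?_⟩
  have hq := three_le (F := F) hF
  have hq0 : 0 < qq F := by linarith
  have hB : 0 < BB := by
    unfold BB
    norm_num
  have hom := om2_nonneg hq d j
  have hww := w2_nonneg hq d j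
  have hjr : (1 : ℝ) ≤ j := by exact_mod_cast hj1
  have s2 := small_sum4 hC hq hd hG hv (e := 2) hj (Or.inr rfl)
    (BB ^ 2 * om2 (qq F) d j / (10 ^ 6 * j)) (by positivity) (fun h => num_c hq hd h)
  have s1 := small_sum4 hC hq hd hG hv (e := 1) hj (Or.inl rfl)
    (BB * w2 (qq F) d j) (by positivity)
    (fun h => (num_c hq hd h).trans (om_le_w hq d hj1))
  simp only [pow_one] at s1
  simp only [sq_abs] at s2
  -- the primes of degree `j`
  have hfil : (PD F j).filter (fun P => ¬ P.natDegree < j) = PI F j := by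
    ext P
    rw [mem_filter, mem_PD, mem_PI]
    constructor
    · rintro ⟨⟨⟨h1, h2⟩, h3, _⟩, h4⟩
      exact ⟨⟨h1, by omega⟩, h3⟩
    · rintro ⟨⟨h1, h2⟩, h3⟩
      exact ⟨⟨⟨h1, h2.le⟩, h3, by rw [h2]⟩, by omega⟩
  have hterm : ∀ P ∈ PI F j, |v P (j / P.natDegree)| ≤ |a P| := by
    intro P hP
    rw [(mem_PI.1 hP).1.2, Nat.div_self (by omega)]
    exact (hv j hj P hP).1
  have l2 := hG.l2 j hj1 hj
  have l1' := l1 hC hq hG hj1 hj
  have hsplit : ∀ f : F[X] → ℝ, ∑ P ∈ PD F j, f P =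
      ∑ P ∈ (PD F j).filter (fun P => P.natDegree < j), f P + ∑ P ∈ PI F j, f P := by
    intro f
    rw [← hfil, sum_filter_add_sum_filter_not]
  refine ⟨?_, ?_, s2⟩
  · rw [hsplit]
    have h1 : ∑ P ∈ PI F j, |v P (j / P.natDegree)| ≤ ∑ P ∈ PI F j, |a P| := sum_le_sum hterm
    linarith
  · rw [hsplit]
    have h1 : ∑ P ∈ PI F j, v P (j / P.natDegree) ^ 2 ≤ ∑ P ∈ PI F j, a P ^ 2 :=
      sum_le_sum fun P hP => sq_le_sq.mpr (hterm P hP)
    have h2 : BB ^ 2 * om2 (qq F) d j / (10 ^ 6 * j) ≤ BB ^ 2 * om2 (qq F) d j := by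
      apply div_le_self (by positivity)
      nlinarith
    linarith

end main

end Pool.Agent.Q92.PX
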