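import Pool.Agent.Q35.PX.Stm

/-!
Project PX (helper35), job PX-GEN: a generic alternating matrix with prescribed support and rank.
-/

set_option autoImplicit false

namespace Pool.Agent.Q92.PX

open MvPolynomial Finset
open Pool.Agent.Q35.PX (cover meet S_Gen)

open scoped Classical in
theorem mem_meet {n : ℕ} {k : Type} [Field k] (z : Fin n → kˣ) (τ : kˣ) (U : Finset (Fin n))
    (x : Fin n × Fin n) :
    x ∈ meet z τ U ↔ x.1 < x.2 ∧ z x.1 * z x.2 = τ ∧ (x.1 ∈ U ∨ x.2 ∈ U) := by
  unfold meet
  simp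

section

variable {k : Type} [Field k] {n q : ℕ} (z : Fin n → kˣ) (τ : kˣ) (u v : Fin q → Fin n)

/-- the index set of the variables -/
abbrev PT : Type := {x : Fin n × Fin n // x ∈ meet z τ (cover u v)}

/-- the list of the `2 q` vertices -/
abbrev ee : Fin q ⊕ Fin q → Fin n := Sum.elim u v

open scoped Classical in
/-- the generic matrix with entries in an algebra -/
noncomputable def AA {R : Type} [CommRing R] (c : PT z τ u v → R) : Matrix (Fin n) (Fin n) R :=
  fun a b => if h : (a, b) ∈ meet z τ (cover u v) then c ⟨(a, b), h⟩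
    else if h' : (b, a) ∈ meet z τ (cover u v) then - c ⟨(b, a), h'⟩ else 0

theorem AA_map {R S : Type} [CommRing R] [CommRing S] (f : R →+* S) (c : PT z τ u v → R) :
    (AA z τ u v c).map f = AA z τ u v (fun x => f (c x)) := by
  ext a b
  simp only [Matrix.map_apply, AA]
  split_ifs <;> simp

theorem AA_neg {R : Type} [CommRing R] (c : PT z τ u v → R) (a b : Fin n) :
    AA z τ u v c b a = - AA z τ u v c a b := by
  unfold AA
  by_cases h1 : (a, b) ∈ meet z τ (cover u v)
  · have h2 : (b, a) ∉ meet z τ (cover u v) := by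
      intro h2
      rw [mem_meet] at h1 h2
      exact absurd h1.1 (not_lt.2 h2.1.le)
    rw [dif_neg h2, dif_pos h1, dif_pos h1]
  · by_cases h2 : (b, a) ∈ meet z τ (cover u v)
    · rw [dif_pos h2, dif_neg h1, dif_pos h2, neg_neg]
    · rw [dif_neg h2, dif_neg h1, dif_neg h1, dif_neg h2, neg_zero]

theorem AA_supp {R : Type} [CommRing R] (c : PT z τ u v → R) (a b : Fin n) (h : z a * z b ≠ τ) :
    AA z τ u v c a b = 0 := by
  unfold AA
  rw [dif_neg, dif_neg]
  · rw [mem_meet]
    rintro ⟨-, h2, -⟩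
    exact h (by rw [mul_comm]; exact h2)
  · rw [mem_meet]
    rintro ⟨-, h2, -⟩
    exact h h2

theorem AA_mem {R : Type} [CommRing R] (c : PT z τ u v → R) (x : PT z τ u v) :
    AA z τ u v c x.1.1 x.1.2 = c x := by
  unfold AA
  rw [dif_pos x.2]

theorem ee_mem (i : Fin q ⊕ Fin q) : ee u v i ∈ cover u v := by
  unfold Pool.Agent.Q35.PX.cover
  rw [mem_union, mem_image, mem_image]
  rcases i with i | i
  · exact Or.inl ⟨i, mem_univ _, rfl⟩
  · exact Or.inr ⟨i, mem_univ _, rfl⟩

theorem mem_ee {a : Fin n} (h : a ∈ cover u v) : ∃ i, ee u v i = a := by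
  unfold Pool.Agent.Q35.PX.cover at h
  rw [mem_union, mem_image, mem_image] at h
  rcases h with ⟨i, -, h⟩ | ⟨i, -, h⟩
  · exact ⟨Sum.inl i, h⟩
  · exact ⟨Sum.inr i, h⟩

variable {u v} in
/-- the evaluation with nonzero determinant -/
theorem det_ev (hinj : Function.Injective (ee u v)) (hz : ∀ i, z (u i) * z (v i) = τ) :
    ∃ c : PT z τ u v → k, ((AA z τ u v c).submatrix (ee u v) (ee u v)).det ≠ 0 := by
  classical
  refine ⟨fun x => if ∃ i : Fin q ⊕ Fin q, x.1 = (ee u v i, ee u v i.swap) then 1 else 0, ?_⟩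
  obtain ⟨c, hc⟩ : ∃ c : PT z τ u v → k, c = fun x =>
    if ∃ i : Fin q ⊕ Fin q, x.1 = (ee u v i, ee u v i.swap) then 1 else 0 := ⟨_, rfl⟩
  rw [← hc]
  have hz2 : ∀ i : Fin q ⊕ Fin q, z (ee u v i) * z (ee u v i.swap) = τ := by
    rintro (i | i)
    · exact hz i
    · rw [mul_comm]; exact hz i
  have hne : ∀ i : Fin q ⊕ Fin q, ee u v i ≠ ee u v i.swap := by
    intro i h
    have := hinj h
    rcases i with i | i <;> simp at this
  obtain ⟨s, hs⟩ : ∃ s : Fin q ⊕ Fin q → k, s = fun i => if ee u v i < ee u v i.swap then 1 else -1 := ⟨_, rfl⟩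
  have hW : ∀ i j, AA z τ u v c (ee u v i) (ee u v j) = if j = i.swap then s i else 0 := by
    intro i j
    split_ifs with hj
    · subst hj
      rcases lt_or_gt_of_ne (hne i) with h | h
      · have h1 : (ee u v i, ee u v i.swap) ∈ meet z τ (cover u v) := by
          rw [mem_meet]
          exact ⟨h, hz2 i, Or.inl (ee_mem u v i)⟩
        unfold AA
        rw [dif_pos h1, hc, hs]
        simp only
        rw [if_pos ⟨i, rfl⟩, if_pos h]
      · have h1 : (ee u v i.swap, ee u v i) ∈ meet z τ (cover u v) := by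
          rw [mem_meet]
          exact ⟨h, by rw [mul_comm]; exact hz2 i, Or.inr (ee_mem u v i)⟩
        have h2 : (ee u v i, ee u v i.swap) ∉ meet z τ (cover u v) := by
          rw [mem_meet]
          rintro ⟨h3, -⟩
          exact absurd h3 (not_lt.2 h.le)
        unfold AA
        rw [dif_neg h2, dif_pos h1, hc, hs]
        simp only
        rw [if_pos ⟨i.swap, by rw [Sum.swap_swap]⟩, if_neg (not_lt.2 h.le)]
    · have h0 : ∀ x : PT z τ u v, x.1 = (ee u v i, ee u v j) ∨ x.1 = (ee u v j, ee u v i) → c x = 0 := by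
        intro x hx
        rw [hc]
        simp only
        rw [if_neg]
        rintro ⟨l, hl⟩
        rcases hx with hx | hx
        · rw [hx, Prod.mk.injEq] at hl
          rw [hinj hl.2, hinj hl.1] at hj
          exact hj rfl
        · rw [hx, Prod.mk.injEq] at hl
          rw [hinj hl.2, hinj hl.1, Sum.swap_swap] at hj
          exact hj rfl
      unfold AA
      split_ifs with h1 h2
      · exact h0 _ (Or.inl rfl)
      · rw [h0 _ (Or.inr rfl), neg_zero]
      · rfl
  have hss : ∀ i, s i * s i.swap = -1 := by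
    intro i
    rw [hs]
    simp only
    rw [Sum.swap_swap]
    rcases lt_or_gt_of_ne (hne i) with h | h
    · rw [if_pos h, if_neg (not_lt.2 h.le), one_mul]
    · rw [if_neg (not_lt.2 h.le), if_pos h, mul_one]
  obtain ⟨W, hWd⟩ : ∃ W : Matrix (Fin q ⊕ Fin q) (Fin q ⊕ Fin q) k,
      W = (AA z τ u v c).submatrix (ee u v) (ee u v) := ⟨_, rfl⟩
  have hWe : ∀ i j, W i j = if j = i.swap then s i else 0 := by
    intro i j
    rw [hWd, Matrix.submatrix_apply, hW]
  rw [← hWd]
  refine Matrix.det_ne_zero_of_right_inverse (B := -W) ?_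
  ext i l
  rw [Matrix.mul_apply]
  simp only [Matrix.neg_apply, hWe]
  rw [Finset.sum_eq_single i.swap]
  · rw [if_pos rfl, Sum.swap_swap]
    by_cases h : i = l
    · subst h
      rw [if_pos rfl, Matrix.one_apply_eq, mul_neg, hss, neg_neg]
    · rw [if_neg (fun h' => h h'.symm), Matrix.one_apply_ne h, neg_zero, mul_zero]
  · intro j _ hj
    rw [if_neg hj, zero_mul]
  · intro h
    exact absurd (mem_univ _) h

end

theorem gen : S_Gen := by
  intro k _ _ n q z τ u v hinj hz
  obtain ⟨K, iF, iA, f, hf⟩ : ∃ (K : Type) (_ : Field K) (_ : Algebra k K)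
      (f : MvPolynomial (PT z τ u v) k →ₐ[k] K), Function.Injective f :=
    ⟨FractionRing (MvPolynomial (PT z τ u v) k), inferInstance, inferInstance,
      IsScalarTower.toAlgHom k (MvPolynomial (PT z τ u v) k) (FractionRing (MvPolynomial (PT z τ u v) k)),
      IsFractionRing.injective _ _⟩
  have hchar : CharZero K := charZero_of_injective_algebraMap (algebraMap k K).injective
  obtain ⟨A, hA⟩ : ∃ A : Matrix (Fin n) (Fin n) K, A = AA z τ u v (fun x => f (X x)) := ⟨_, rfl⟩
  obtain ⟨e, he⟩ : ∃ e : Fin q ⊕ Fin q → Fin n, e = ee u v := ⟨_, rfl⟩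
  obtain ⟨B, hB⟩ : ∃ B : Matrix (Fin q ⊕ Fin q) (Fin q ⊕ Fin q) K, B = A.submatrix e e := ⟨_, rfl⟩
  have hdet : IsUnit B.det := by
    obtain ⟨c, hc⟩ := det_ev z τ hinj hz
    have h1 : ((AA z τ u v (fun x => (X x : MvPolynomial (PT z τ u v) k))).submatrix (ee u v) (ee u v)).det ≠ 0 := by
      intro h
      apply hc
      have h2 := congrArg (MvPolynomial.eval c) h
      rw [RingHom.map_det, map_zero] at h2
      rw [← h2]
      congr 1
      ext i j
      have h3 := congrFun (congrFun (AA_map z τ u v (MvPolynomial.eval c) fun x => (X x : MvPolynomial (PT z τ u v) k))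
        (ee u v i)) (ee u v j)
      simp only [MvPolynomial.eval_X] at h3
      rw [Matrix.submatrix_apply, ← h3]
      rfl
    rw [isUnit_iff_ne_zero]
    intro h
    apply h1
    apply hf
    rw [map_zero, ← h, hB, hA, he]
    have h4 := RingHom.map_det f.toRingHom
      ((AA z τ u v (fun x => (X x : MvPolynomial (PT z τ u v) k))).submatrix (ee u v) (ee u v))
    refine h4.trans ?_
    congr 1
    ext i j
    exact congrFun (congrFun (AA_map z τ u v f.toRingHom fun x => (X x : MvPolynomial (PT z τ u v) k))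
      (ee u v i)) (ee u v j)
  have hAn : ∀ a b, A b a = - A a b := by
    intro a b
    rw [hA]
    exact AA_neg z τ u v _ a b
  obtain ⟨C, hC⟩ : ∃ C : Matrix (Fin n) (Fin q ⊕ Fin q) K, C = A.submatrix id e := ⟨_, rfl⟩
  obtain ⟨R, hR⟩ : ∃ R : Matrix (Fin q ⊕ Fin q) (Fin n) K, R = A.submatrix e id := ⟨_, rfl⟩
  obtain ⟨Y, hY⟩ : ∃ Y : Matrix (Fin n) (Fin n) K, Y = C * B⁻¹ * R := ⟨_, rfl⟩
  have hBT : B.transpose = -B := by
    ext i j
    rw [hB]
    simp only [Matrix.transpose_apply, Matrix.submatrix_apply, Matrix.neg_apply]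
    exact hAn _ _
  have hCT : C.transpose = -R := by
    ext i j
    rw [hC, hR]
    simp only [Matrix.transpose_apply, Matrix.submatrix_apply, Matrix.neg_apply]
    exact hAn _ _
  have hRT : R.transpose = -C := by
    ext i j
    rw [hC, hR]
    simp only [Matrix.transpose_apply, Matrix.submatrix_apply, Matrix.neg_apply]
    exact hAn _ _
  have hBi : (B⁻¹).transpose = -B⁻¹ := by
    rw [Matrix.transpose_nonsing_inv, hBT]
    refine Matrix.inv_eq_right_inv ?_
    rw [Matrix.neg_mul, Matrix.mul_neg, neg_neg, Matrix.mul_nonsing_inv B hdet]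
  have hYT : Y.transpose = -Y := by
    rw [hY, Matrix.transpose_mul, Matrix.transpose_mul, hCT, hRT, hBi]
    simp only [Matrix.neg_mul, Matrix.mul_neg, neg_neg, Matrix.mul_assoc]
  have hYn : ∀ a b, Y b a = - Y a b := fun a b => by
    have := congrFun (congrFun hYT a) b
    simpa using this
  -- the entries in rows and columns of U
  have hYr : ∀ i b, Y (e i) b = A (e i) b := by
    intro i b
    have h1 : (C.submatrix e id) = B := by
      rw [hC, hB]
      rfl
    have h2 : (Y.submatrix e id) = R := by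
      have h3 : (Y.submatrix e id) = (C.submatrix e id) * B⁻¹ * R := by
        rw [hY]
        ext i j
        simp [Matrix.mul_apply]
      rw [h3, h1, Matrix.mul_nonsing_inv B hdet, Matrix.one_mul]
    have h4 := congrFun (congrFun h2 i) b
    rw [hR] at h4
    simpa using h4
  have hYU : ∀ x : PT z τ u v, Y x.1.1 x.1.2 = f (X x) := by
    intro x
    have h0 : A x.1.1 x.1.2 = f (X x) := by
      rw [hA]
      exact AA_mem z τ u v _ x
    obtain ⟨-, -, h1⟩ := (mem_meet z τ (cover u v) x.1).1 x.2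
    rcases h1 with h1 | h1
    · obtain ⟨i, hi⟩ := mem_ee u v h1
      rw [← he] at hi
      rw [← h0, ← hi, hYr]
    · obtain ⟨i, hi⟩ := mem_ee u v h1
      rw [← he] at hi
      rw [← h0, hYn x.1.2 x.1.1, ← hi, hYr, hAn x.1.1 (e i), neg_neg]
  refine ⟨K, iF, iA, Y, ?_, hYn, ?_, ?_, ?_⟩
  · intro a
    have h1 := hYn a a
    have h2 : (2 : K) * Y a a = 0 := by linear_combination h1
    rcases mul_eq_zero.1 h2 with h3 | h3
    · exact absurd h3 two_ne_zero
    · exact h3
  · -- support
    intro a b hab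
    obtain ⟨ζ, hζ⟩ : ∃ ζ : Fin n → K, ζ = fun a => algebraMap k K (z a : k) := ⟨_, rfl⟩
    obtain ⟨t, ht⟩ : ∃ t : K, t = algebraMap k K (τ : k) := ⟨_, rfl⟩
    have hζ0 : ∀ a, ζ a ≠ 0 := by
      intro a
      rw [hζ]
      simp
    have ht0 : t ≠ 0 := by
      rw [ht]
      simp
    have hA2 : ∀ a b, ζ a * A a b * ζ b = t * A a b := by
      intro a b
      by_cases h : z a * z b = τ
      · have h1 : ζ a * ζ b = t := by
          rw [hζ, ht, ← h]
          simp
        rw [← h1]
        ring
      · have h1 : A a b = 0 := by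
          rw [hA]
          exact AA_supp z τ u v _ a b h
        rw [h1]
        ring
    obtain ⟨D, hD⟩ : ∃ D : Matrix (Fin n) (Fin n) K, D = Matrix.diagonal ζ := ⟨_, rfl⟩
    obtain ⟨E, hE⟩ : ∃ E : Matrix (Fin q ⊕ Fin q) (Fin q ⊕ Fin q) K, E = Matrix.diagonal (fun i => ζ (e i)) := ⟨_, rfl⟩
    obtain ⟨E', hE'⟩ : ∃ E' : Matrix (Fin q ⊕ Fin q) (Fin q ⊕ Fin q) K, E' = Matrix.diagonal (fun i => (ζ (e i))⁻¹) := ⟨_, rfl⟩
    have hEE : E * E' = 1 := by
      rw [hE, hE', Matrix.diagonal_mul_diagonal, ← Matrix.diagonal_one]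
      congr 1
      ext i
      exact mul_inv_cancel₀ (hζ0 _)
    have hEE' : E' * E = 1 := by
      rw [hE, hE', Matrix.diagonal_mul_diagonal, ← Matrix.diagonal_one]
      congr 1
      ext i
      exact inv_mul_cancel₀ (hζ0 _)
    have h1 : D * C * E = t • C := by
      ext a i
      rw [hD, hE, Matrix.mul_diagonal, Matrix.diagonal_mul, Matrix.smul_apply, hC, smul_eq_mul]
      exact hA2 _ _
    have h2 : E * R * D = t • R := by
      ext a i
      rw [hD, hE, Matrix.mul_diagonal, Matrix.diagonal_mul, Matrix.smul_apply, hR, smul_eq_mul]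
      exact hA2 _ _
    have h3 : E * B * E = t • B := by
      ext a i
      rw [hE, Matrix.mul_diagonal, Matrix.diagonal_mul, Matrix.smul_apply, hB, smul_eq_mul]
      exact hA2 _ _
    have h4 : E' * B⁻¹ * E' = t⁻¹ • B⁻¹ := by
      have h5 : (t • B) * (E' * B⁻¹ * E') = 1 := by
        rw [← h3]
        calc E * B * E * (E' * B⁻¹ * E') = E * B * (E * E') * B⁻¹ * E' := by
              simp only [Matrix.mul_assoc]
          _ = E * (B * B⁻¹) * E' := by rw [hEE]; simp only [Matrix.mul_assoc, Matrix.one_mul]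
          _ = 1 := by rw [Matrix.mul_nonsing_inv B hdet, Matrix.mul_one, hEE]
      have h6 : (t • B) * (t⁻¹ • B⁻¹) = 1 := by
        rw [Matrix.smul_mul, Matrix.mul_smul, smul_smul, mul_inv_cancel₀ ht0, one_smul,
          Matrix.mul_nonsing_inv B hdet]
      have h7 : (t⁻¹ • B⁻¹) * (t • B) = 1 := by
        rw [Matrix.smul_mul, Matrix.mul_smul, smul_smul, inv_mul_cancel₀ ht0, one_smul,
          Matrix.nonsing_inv_mul B hdet]
      calc E' * B⁻¹ * E' = (t⁻¹ • B⁻¹) * (t • B) * (E' * B⁻¹ * E') := by rw [h7, Matrix.one_mul]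
        _ = (t⁻¹ • B⁻¹) * ((t • B) * (E' * B⁻¹ * E')) := by rw [Matrix.mul_assoc]
        _ = _ := by rw [h5, Matrix.mul_one]
    have h5 : D * Y * D = t • Y := by
      have h6 : D * C = (t • C) * E' := by
        rw [← h1, Matrix.mul_assoc, hEE, Matrix.mul_one]
      have h7 : R * D = E' * (t • R) := by
        rw [← h2, ← Matrix.mul_assoc, ← Matrix.mul_assoc, hEE', Matrix.one_mul]
      calc D * Y * D = (D * C) * B⁻¹ * (R * D) := by
            rw [hY]
            simp only [Matrix.mul_assoc]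
        _ = (t • C) * (E' * B⁻¹ * E') * (t • R) := by
            rw [h6, h7]
            simp only [Matrix.mul_assoc]
        _ = t • Y := by
            rw [h4, hY]
            simp only [Matrix.smul_mul, Matrix.mul_smul, smul_smul]
            rw [inv_mul_cancel₀ ht0, mul_one]
    have h6 := congrFun (congrFun h5 a) b
    rw [hD, Matrix.mul_diagonal, Matrix.diagonal_mul, Matrix.smul_apply, smul_eq_mul] at h6
    have h7 : (ζ a * ζ b - t) * Y a b = 0 := by linear_combination h6
    rcases mul_eq_zero.1 h7 with h8 | h8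
    · exfalso
      apply hab
      apply Units.ext
      apply (algebraMap k K).injective
      rw [Units.val_mul, map_mul]
      rw [hζ, ht] at h8
      exact sub_eq_zero.1 h8
    · exact h8
  · rw [hY]
    refine (Matrix.rank_mul_le_right _ _).trans ?_
    refine (Matrix.rank_le_card_height _).trans ?_
    simp
    omega
  · have h1 : (fun x : {x // x ∈ meet z τ (cover u v)} => Y x.1.1 x.1.2) = f ∘ X := by
      funext x
      exact hYU x
    rw [h1]
    exact (MvPolynomial.algebraicIndependent_X (PT z τ u v) k).map' hf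

end Pool.Agent.Q92.PX
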